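import Mathlib

set_option autoImplicit false

/-!
# Products of `2 p - 1` binary linear forms in characteristic `p`
-/

namespace Pool.Agent.W5h21.AT

open Polynomial Finset

set_option linter.unusedSectionVars false

variable {F : Type*} [Field F] [DecidableEq F] {ι : Type*} [DecidableEq ι]

/-- the linear form -/
noncomputable def lf (a b : ι → F) (i : ι) : F[X] := C (a i) * X + C (b i)

lemma lf_ne {a b : ι → F} {i : ι} (h : ¬ (a i = 0 ∧ b i = 0)) : lf a b i ≠ 0 := by
  intro h0
  apply h
  have h1 := congrArg (fun f : F[X] => f.coeff 1) h0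
  have h2 := congrArg (fun f : F[X] => f.coeff 0) h0
  simp [lf] at h1 h2
  exact ⟨h1, h2⟩

lemma natDegree_lf_le (a b : ι → F) (i : ι) : (lf a b i).natDegree ≤ 1 := by
  unfold lf
  exact natDegree_linear_le

lemma natDegree_prod_le' (a b : ι → F) (s : Finset ι) : (∏ i ∈ s, lf a b i).natDegree ≤ s.card := by
  refine (natDegree_prod_le _ _).trans ?_
  calc ∑ i ∈ s, (lf a b i).natDegree ≤ ∑ _i ∈ s, 1 := Finset.sum_le_sum fun i _ => natDegree_lf_le a b i
    _ = s.card := by simp

lemma natDegree_prod_lf {a b : ι → F} {s : Finset ι} (h : ∀ i ∈ s, ¬ (a i = 0 ∧ b i = 0)) :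
    (∏ i ∈ s, lf a b i).natDegree = (s.filter (fun i => a i ≠ 0)).card := by
  rw [natDegree_prod _ _ (fun i hi => lf_ne (h i hi)), Finset.card_filter]
  refine Finset.sum_congr rfl fun i _ => ?_
  unfold lf
  by_cases ha : a i = 0
  · simp [ha]
  · rw [if_pos ha, natDegree_linear ha]

/-- division by `X ^ p` of a multiple of a form without the coefficient at `p - 1` -/
lemma split_mul {p : ℕ} (hp : 1 ≤ p) (l g : F[X]) (hl : l.natDegree ≤ 1) (hg : g.coeff (p - 1) = 0) :
    (l * g) /ₘ (X ^ p) = l * (g /ₘ X ^ p) ∧ (l * g) %ₘ (X ^ p) = l * (g %ₘ X ^ p) := by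
  have hm : (X ^ p : F[X]).Monic := monic_X_pow p
  refine div_modByMonic_unique _ _ hm ⟨?_, ?_⟩
  · have h := modByMonic_add_div g (X ^ p : F[X])
    calc l * (g %ₘ X ^ p) + X ^ p * (l * (g /ₘ X ^ p))
        = l * (g %ₘ X ^ p + X ^ p * (g /ₘ X ^ p)) := by ring
      _ = l * g := by rw [h]
  · -- the degree
    have h1 : ∀ m, p - 1 ≤ m → (g %ₘ X ^ p).coeff m = 0 := by
      intro m hm'
      rcases Nat.lt_or_ge m p with h | h
      · have e : m = p - 1 := by omega
        have h2 := congrArg (fun f : F[X] => f.coeff (p - 1)) (modByMonic_add_div g (X ^ p : F[X]))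
        simp only [coeff_add, coeff_X_pow_mul'] at h2
        rw [if_neg (by omega), add_zero, hg] at h2
        rw [e]; exact h2
      · refine coeff_eq_zero_of_degree_lt ?_
        have h3 := degree_modByMonic_lt g hm
        rw [degree_X_pow] at h3
        exact lt_of_lt_of_le h3 (by exact_mod_cast h)
    rw [degree_X_pow]
    rw [degree_lt_iff_coeff_zero]
    intro m hm'
    rw [coeff_mul]
    refine Finset.sum_eq_zero fun x hx => ?_
    rw [Finset.HasAntidiagonal.mem_antidiagonal] at hx
    rcases Nat.lt_or_ge 1 x.1 with h | h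
    · rw [coeff_eq_zero_of_natDegree_lt (lt_of_le_of_lt hl h), zero_mul]
    · rw [h1 x.2 (by omega), mul_zero]

/-- a polynomial of degree less than `p` with derivative zero is constant -/
lemma const_of_derivative {p : ℕ} [Fact p.Prime] [CharP F p] {f : F[X]} (hf : f.natDegree < p)
    (h : derivative f = 0) : f = C (f.coeff 0) := by
  ext n
  rcases n with _ | n
  · simp
  · rw [coeff_C, if_neg (by omega)]
    rcases Nat.lt_or_ge (n + 1) p with h1 | h1
    · have h2 := congrArg (fun g : F[X] => g.coeff n) h
      simp only [coeff_derivative, coeff_zero] at h2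
      rcases mul_eq_zero.1 h2 with h3 | h3
      · exact h3
      · exfalso
        have h4 : ((n + 1 : ℕ) : F) = 0 := by push_cast; exact h3
        rw [CharP.cast_eq_zero_iff F p] at h4
        exact absurd (Nat.le_of_dvd (Nat.succ_pos n) h4) (by omega)
    · exact coeff_eq_zero_of_natDegree_lt (by omega)

/-- proportional polynomials -/
lemma wronskian {p : ℕ} [Fact p.Prime] [CharP F p] {A B : F[X]} (hA : A.natDegree < p)
    (hB : B.natDegree < p) (h : A * derivative B = derivative A * B) :
    ∃ (H : F[X]) (α β : F), A = C α * H ∧ B = C β * H := by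
  by_cases hA0 : A = 0
  · exact ⟨B, 0, 1, by simp [hA0], by simp⟩
  by_cases hB0 : B = 0
  · exact ⟨A, 1, 0, by simp, by simp [hB0]⟩
  classical
  set H := EuclideanDomain.gcd A B with hH
  have hH0 : H ≠ 0 := by
    intro h0
    rw [hH, EuclideanDomain.gcd_eq_zero_iff] at h0
    exact hA0 h0.1
  obtain ⟨A1, hA1⟩ := EuclideanDomain.gcd_dvd_left A B
  obtain ⟨B1, hB1⟩ := EuclideanDomain.gcd_dvd_right A B
  rw [← hH] at hA1 hB1
  have hcop : IsCoprime A1 B1 := by
    have h1 := EuclideanDomain.gcd_eq_gcd_ab A B
    refine ⟨EuclideanDomain.gcdA A B, EuclideanDomain.gcdB A B, ?_⟩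
    rw [← hH] at h1
    have h2 : H * (EuclideanDomain.gcdA A B * A1 + EuclideanDomain.gcdB A B * B1) = H * 1 := by
      calc H * (EuclideanDomain.gcdA A B * A1 + EuclideanDomain.gcdB A B * B1)
          = (H * A1) * EuclideanDomain.gcdA A B + (H * B1) * EuclideanDomain.gcdB A B := by ring
        _ = A * EuclideanDomain.gcdA A B + B * EuclideanDomain.gcdB A B := by rw [← hA1, ← hB1]
        _ = H * 1 := by rw [mul_one]; exact h1.symm
    exact mul_left_cancel₀ hH0 h2
  have hA10 : A1 ≠ 0 := by rintro rfl; exact hA0 (by rw [hA1, mul_zero])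
  have hB10 : B1 ≠ 0 := by rintro rfl; exact hB0 (by rw [hB1, mul_zero])
  have hw : A1 * derivative B1 = derivative A1 * B1 := by
    have h3 : H ^ 2 * (A1 * derivative B1 - derivative A1 * B1) = 0 := by
      have h4 := h
      rw [hA1, hB1, derivative_mul, derivative_mul] at h4
      linear_combination h4
    rcases mul_eq_zero.1 h3 with h5 | h5
    · exact absurd h5 (pow_ne_zero 2 hH0)
    · exact sub_eq_zero.1 h5
  have hdA : A1.natDegree < p := by
    have : A1.natDegree ≤ A.natDegree := by
      rw [hA1, natDegree_mul hH0 hA10]; omega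
    omega
  have hdB : B1.natDegree < p := by
    have : B1.natDegree ≤ B.natDegree := by
      rw [hB1, natDegree_mul hH0 hB10]; omega
    omega
  have key : ∀ f g : F[X], f ≠ 0 → IsCoprime f g → f ∣ derivative f * g → derivative f = 0 := by
    intro f g hf hc hd
    have h1 : f ∣ derivative f := hc.dvd_of_dvd_mul_right hd
    by_contra h2
    have h3 := natDegree_le_of_dvd h1 h2
    rcases Nat.eq_zero_or_pos f.natDegree with h4 | h4
    · exact h2 (by rw [eq_C_of_natDegree_eq_zero h4, derivative_C])
    · have := natDegree_derivative_lt (by omega : f.natDegree ≠ 0)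
      omega
  have e1 := const_of_derivative (p := p) hdA (key A1 B1 hA10 hcop (Dvd.intro _ hw))
  have e2 := const_of_derivative (p := p) hdB (key B1 A1 hB10 hcop.symm
    (Dvd.intro (derivative A1) (by rw [mul_comm B1, ← hw, mul_comm])))
  refine ⟨H, A1.coeff 0, B1.coeff 0, ?_, ?_⟩
  · rw [← e1, mul_comm]; exact hA1
  · rw [← e2, mul_comm]; exact hB1

/-- the multiplicity of a point in a product of linear forms -/
lemma mult_le {a b : ι → F} (ρ : F) (s : Finset ι) (h : ∀ i ∈ s, ¬ (a i = 0 ∧ b i = 0)) (m : ℕ)
    (hd : (X - C ρ) ^ m ∣ ∏ i ∈ s, lf a b i) : m ≤ (s.filter (fun i => a i * ρ + b i = 0)).card := by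
  induction s using Finset.induction_on generalizing m with
  | empty =>
    rw [Finset.prod_empty] at hd
    rcases m with _ | m
    · exact Nat.zero_le _
    · exfalso
      have h1 : (X - C ρ) ∣ (1 : F[X]) := (dvd_pow_self _ (Nat.succ_ne_zero m)).trans hd
      exact (prime_X_sub_C ρ).not_isUnit (isUnit_of_dvd_one h1)
  | insert j s hj ih =>
    have hs : ∀ i ∈ s, ¬ (a i = 0 ∧ b i = 0) := fun i hi => h i (mem_insert_of_mem hi)
    rw [Finset.prod_insert hj] at hd
    rw [Finset.filter_insert]
    by_cases hr : a j * ρ + b j = 0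
    · rw [if_pos hr, Finset.card_insert_of_notMem (by simp [hj])]
      rcases m with _ | m
      · exact Nat.zero_le _
      · refine Nat.succ_le_succ (ih hs m ?_)
        have haj : a j ≠ 0 := by
          intro h0
          rw [h0, zero_mul, zero_add] at hr
          exact h j (mem_insert_self j s) ⟨h0, hr⟩
        have hlf : lf a b j = C (a j) * (X - C ρ) := by
          unfold lf
          have : b j = - (a j * ρ) := by linear_combination hr
          rw [this]; simp; ring
        rw [hlf, pow_succ', mul_assoc, mul_left_comm] at hd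
        have h2 := (mul_dvd_mul_iff_left (X_sub_C_ne_zero ρ)).1 hd
        exact (IsUnit.dvd_mul_left (isUnit_C.2 haj.isUnit)).1 h2
    · rw [if_neg hr]
      refine ih hs m ?_
      have hcop : IsCoprime ((X - C ρ) ^ m) (lf a b j) := by
        refine IsCoprime.pow_left ?_
        rw [(prime_X_sub_C ρ).irreducible.coprime_iff_not_dvd, dvd_iff_isRoot]
        intro h1
        apply hr
        simpa [lf, IsRoot.def] using h1
      exact hcop.dvd_of_dvd_mul_left hd

/-- **Key theorem.** Among `2 p - 1` nonzero linear forms, no `p + 1` of which are proportional, one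
can delete one such that the coefficient in the middle of the product of the others is not zero. -/
theorem key {p : ℕ} [hp : Fact p.Prime] [CharP F p] (a b : ι → F) (s : Finset ι)
    (hs : s.card = 2 * p - 1) (h0 : ∀ i ∈ s, ¬ (a i = 0 ∧ b i = 0))
    (hfin : ∀ ρ : F, (s.filter (fun i => a i * ρ + b i = 0)).card ≤ p)
    (hinf : (s.filter (fun i => a i = 0)).card ≤ p) :
    ∃ j ∈ s, (∏ i ∈ s.erase j, lf a b i).coeff (p - 1) ≠ 0 := by
  have hp2 : 2 ≤ p := hp.out.two_le
  by_contra hcon
  push Not at hcon
  set G : F[X] := ∏ i ∈ s, lf a b i with hG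
  set g : ι → F[X] := fun j => ∏ i ∈ s.erase j, lf a b i with hg
  have hGg : ∀ j ∈ s, G = lf a b j * g j := fun j hj => (Finset.mul_prod_erase s _ hj).symm
  have hG0 : G ≠ 0 := Finset.prod_ne_zero_iff.2 fun i hi => lf_ne (h0 i hi)
  have hGdeg : G.natDegree ≤ 2 * p - 1 := by
    rw [← hs]; exact natDegree_prod_le' a b s
  have hm : (X ^ p : F[X]).Monic := monic_X_pow p
  set A := G /ₘ X ^ p with hA
  set B := G %ₘ X ^ p with hB
  have hAB : B + X ^ p * A = G := modByMonic_add_div G (X ^ p)
  have hAdeg : A.natDegree = G.natDegree - p := by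
    rw [hA, natDegree_divByMonic G hm, natDegree_X_pow]
  have hBdeg : B.natDegree < p := by
    have h1 := natDegree_modByMonic_lt G hm (by
      intro h
      have := congrArg natDegree h
      rw [natDegree_X_pow, natDegree_one] at this
      omega)
    rwa [natDegree_X_pow] at h1
  have hsplit : ∀ j ∈ s, A = lf a b j * (g j /ₘ X ^ p) ∧ B = lf a b j * (g j %ₘ X ^ p) := by
    intro j hj
    have h1 := split_mul (by omega : 1 ≤ p) (lf a b j) (g j) (natDegree_lf_le a b j) (hcon j hj)
    rw [← hGg j hj] at h1
    exact h1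
  -- the derivative
  have hder : derivative G = ∑ j ∈ s, g j * C (a j) := by
    rw [hG, derivative_prod_finset]
    refine Finset.sum_congr rfl fun j _ => ?_
    rw [hg]
    congr 1
    simp [lf]
  have hAG : A * derivative G = G * ∑ j ∈ s, (g j /ₘ X ^ p) * C (a j) := by
    rw [hder, Finset.mul_sum, Finset.mul_sum]
    refine Finset.sum_congr rfl fun j hj => ?_
    calc A * (g j * C (a j)) = (lf a b j * (g j /ₘ X ^ p)) * (g j * C (a j)) := by
          rw [← (hsplit j hj).1]
      _ = (lf a b j * g j) * ((g j /ₘ X ^ p) * C (a j)) := by ring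
      _ = G * ((g j /ₘ X ^ p) * C (a j)) := by rw [← hGg j hj]
  have hXp : derivative (X ^ p : F[X]) = 0 := by
    rw [derivative_X_pow, CharP.cast_eq_zero, C_0, zero_mul]
  have hderG : derivative G = derivative B + X ^ p * derivative A := by
    rw [← hAB, derivative_add, derivative_mul, hXp, zero_mul, zero_add]
  have hW : G * ((∑ j ∈ s, (g j /ₘ X ^ p) * C (a j)) - derivative A) =
      A * derivative B - derivative A * B := by
    rw [mul_sub, ← hAG, hderG]
    have : G * derivative A = (B + X ^ p * A) * derivative A := by rw [hAB]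
    rw [this]; ring
  have hW0 : A * derivative B - derivative A * B = 0 := by
    by_cases hA0 : A = 0
    · rw [hA0]; simp
    have h1 : p ≤ G.natDegree := by
      by_contra h2
      apply hA0
      rw [hA]
      refine (divByMonic_eq_zero_iff hm).2 ?_
      rw [degree_X_pow]
      exact lt_of_le_of_lt degree_le_natDegree (by exact_mod_cast (by omega : G.natDegree < p))
    refine eq_zero_of_dvd_of_natDegree_lt (Dvd.intro _ hW) ?_
    have e1 : (A * derivative B).natDegree ≤ A.natDegree + (p - 2) := by
      refine natDegree_mul_le.trans (Nat.add_le_add_left ?_ _)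
      have := natDegree_derivative_le B
      omega
    have e2 : (derivative A * B).natDegree ≤ A.natDegree + (p - 1) := by
      refine natDegree_mul_le.trans ?_
      have := natDegree_derivative_le A
      omega
    have e3 := natDegree_sub_le (A * derivative B) (derivative A * B)
    have e4 : max (A * derivative B).natDegree (derivative A * B).natDegree ≤ A.natDegree + (p - 1) :=
      max_le (e1.trans (by omega)) e2
    omega
  obtain ⟨H, α, β, hAH, hBH⟩ := wronskian (p := p) (A := A) (B := B) (by omega) hBdeg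
    (sub_eq_zero.1 hW0)
  have hGH : G = H * (C α * X ^ p + C β) := by
    rw [← hAB, hAH, hBH]; ring
  by_cases hα : α = 0
  · -- many forms at infinity
    have hA0 : A = 0 := by rw [hAH, hα]; simp
    have hGB : G = B := by rw [← hAB, hA0]; simp
    have h1 := natDegree_prod_lf (a := a) (b := b) h0
    rw [← hG, hGB] at h1
    have h2 := Finset.card_filter_add_card_filter_not (s := s) (fun i => a i = 0)
    rw [hs] at h2
    have h3 : (s.filter (fun i => a i = 0)).card = p := by
      have : (s.filter (fun i => a i ≠ 0)).card = (s.filter (fun i => ¬ a i = 0)).card := rfl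
      omega
    have h4 : (s.filter (fun i => a i = 0)).Nonempty := by
      rw [← Finset.card_pos, h3]; omega
    obtain ⟨j, hj⟩ := h4
    rw [Finset.mem_filter] at hj
    have h5 := (hsplit j hj.1).2
    have h6 : lf a b j = C (b j) := by simp [lf, hj.2]
    rw [h6] at h5
    -- the coefficient at `p - 1` vanishes
    have h7 : B.coeff (p - 1) = 0 := by
      rw [h5, coeff_C_mul]
      have h8 := congrArg (fun f : F[X] => f.coeff (p - 1)) (modByMonic_add_div (g j) (X ^ p : F[X]))
      simp only [coeff_add, coeff_X_pow_mul'] at h8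
      rw [if_neg (by omega), add_zero] at h8
      rw [h8, hcon j hj.1, mul_zero]
    have h9 : B.natDegree = p - 1 := by
      have : (s.filter (fun i => a i ≠ 0)).card = (s.filter (fun i => ¬ a i = 0)).card := rfl
      omega
    have hB0 : B ≠ 0 := by rw [← hGB]; exact hG0
    apply hB0
    rw [← leadingCoeff_eq_zero, leadingCoeff, h9]
    exact h7
  · -- a finite point of multiplicity `p + 1`
    have hα' : (C α * X ^ p + C β : F[X]) ∣ G := Dvd.intro_left H hGH.symm
    -- a root among the roots of the forms
    have hq0 : (C α * X ^ p + C β : F[X]).natDegree = p := by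
      rw [natDegree_add_C, natDegree_C_mul_X_pow p α hα]
    have hqu : ¬ IsUnit (C α * X ^ p + C β : F[X]) := by
      intro hu
      have := natDegree_eq_zero_of_isUnit hu
      omega
    have hqne : (C α * X ^ p + C β : F[X]) ≠ 0 := by
      intro h
      rw [h, natDegree_zero] at hq0
      omega
    obtain ⟨π, hπ, hπd⟩ := WfDvdMonoid.exists_irreducible_factor hqu hqne
    have hπ' : Prime π := hπ.prime
    obtain ⟨j, hj, hπj⟩ := (hπ'.dvd_finsetProd_iff _).1 (hπd.trans hα')
    have haj : a j ≠ 0 := by
      intro h1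
      have h2 : lf a b j = C (b j) := by simp [lf, h1]
      rw [h2] at hπj
      have h3 : b j ≠ 0 := fun h3 => h0 j hj ⟨h1, h3⟩
      exact hπ.not_isUnit (isUnit_of_dvd_unit hπj (isUnit_C.2 h3.isUnit))
    set ρ : F := - b j / a j with hρ
    have hρj : a j * ρ + b j = 0 := by rw [hρ]; field_simp; ring
    have hlf : lf a b j = C (a j) * (X - C ρ) := by
      unfold lf
      have : b j = - (a j * ρ) := by linear_combination hρj
      rw [this]; simp; ring
    have hπX : π ∣ X - C ρ := by
      rw [hlf] at hπj
      exact (IsUnit.dvd_mul_left (isUnit_C.2 haj.isUnit)).1 hπj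
    have hXπ : X - C ρ ∣ π := by
      obtain ⟨c, hc⟩ := hπX
      rcases (prime_X_sub_C ρ).irreducible.isUnit_or_isUnit hc with h1 | h1
      · exact absurd h1 hπ.not_isUnit
      · exact ⟨↑(h1.unit⁻¹ : F[X]ˣ), by rw [hc, mul_assoc, IsUnit.mul_val_inv, mul_one]⟩
    have hroot : α * ρ ^ p + β = 0 := by
      have h1 := dvd_iff_isRoot.1 (hXπ.trans hπd)
      simpa [IsRoot.def] using h1
    have hpow : (C α * X ^ p + C β : F[X]) = C α * (X - C ρ) ^ p := by
      rw [sub_pow_char]
      have : β = - (α * ρ ^ p) := by linear_combination hroot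
      rw [this]; simp; ring
    have hH : (X - C ρ) ∣ H := by
      have h1 := (hsplit j hj).1
      rw [hAH, hlf, mul_assoc] at h1
      have h2 : (X - C ρ) ∣ C α * H := ⟨C (a j) * (g j /ₘ X ^ p), by rw [h1]; ring⟩
      exact (IsUnit.dvd_mul_left (isUnit_C.2 (IsUnit.mk0 α hα))).1 h2
    have hdvd : (X - C ρ) ^ (p + 1) ∣ G := by
      obtain ⟨c, hc⟩ := hH
      refine ⟨C α * c, ?_⟩
      rw [hGH, hpow, hc]; ring
    have := mult_le ρ s h0 (p + 1) hdvd
    have := hfin ρ
    omega

end Pool.Agent.W5h21.AT
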