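import Mathlib
import Pool.Agent.H443R2.AB.Perm
import Pool.Agent.W5h21.AT.Two

set_option autoImplicit false
set_option linter.unusedSectionVars false

/-!
# Alon-Tarsi bases adapted to a flag
-/

namespace Pool.Agent.W5h21.AT

open Finset Pool.Agent.H443R2.AB Pool.Agent.H443R2.AB.SF

universe u

variable {F : Type u} [Field F] {X : Type} [DecidableEq X] [Fintype X] {κ : Type} [DecidableEq κ]

/-- the support of a product of linear forms -/
lemma supp_prod (b : κ → X → F) (s : Finset κ) (T : Finset X)
    (h : cf (∏ k ∈ s, (L (b k) : SF X F)) T ≠ 0) :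
    T.card = s.card ∧ ∀ x ∈ T, ∃ k ∈ s, b k x ≠ 0 := by
  induction s using Finset.induction_on generalizing T with
  | empty =>
    rw [Finset.prod_empty, SF.one_apply] at h
    by_cases hT : T = ∅
    · rw [hT]; exact ⟨rfl, by simp⟩
    · exact absurd (if_neg hT) h
  | insert r s hr ih =>
    rw [Finset.prod_insert hr, L_mul_apply] at h
    obtain ⟨x, hx, hne⟩ := Finset.exists_ne_zero_of_sum_ne_zero h
    rw [smul_eq_mul] at hne
    have h1 := right_ne_zero_of_mul hne
    have h0 := left_ne_zero_of_mul hne
    obtain ⟨h2, h3⟩ := ih _ h1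
    refine ⟨by rw [Finset.card_insert_of_notMem hr, ← h2, Finset.card_erase_add_one hx], ?_⟩
    intro y hy
    by_cases hyx : y = x
    · exact ⟨r, mem_insert_self r s, by rw [hyx]; exact h0⟩
    · obtain ⟨k, hk, hk2⟩ := h3 y (mem_erase.2 ⟨hyx, hy⟩)
      exact ⟨k, mem_insert_of_mem hk, hk2⟩

/-- the product of the `m`-th powers of the forms in `s` -/
noncomputable def PP (m : ℕ) {n : ℕ} (a : Fin n → X → F) (s : Finset (Fin n)) : SF X F :=
  ∏ i ∈ s, (L (a i) : SF X F) ^ m

lemma PP_eq (m : ℕ) {n : ℕ} (a : Fin n → X → F) (s : Finset (Fin n)) :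
    PP m a s = ∏ k ∈ (univ : Finset (Fin m)) ×ˢ s, (L (a k.2) : SF X F) := by
  rw [PP, Finset.prod_product_right]
  refine Finset.prod_congr rfl fun i _ => ?_
  have e : ∏ _x : Fin m, (L (a i) : SF X F) = (L (a i) : SF X F) ^ m := by
    rw [Finset.prod_const, Finset.card_univ, Fintype.card_fin]
  exact e.symm

lemma supp_PP (m : ℕ) {n : ℕ} (a : Fin n → X → F) (s : Finset (Fin n)) (T : Finset X)
    (h : cf (PP m a s) T ≠ 0) : T.card = m * s.card ∧ ∀ x ∈ T, ∃ i ∈ s, a i x ≠ 0 := by
  rw [PP_eq] at h
  obtain ⟨h1, h2⟩ := supp_prod (fun k : Fin m × Fin n => a k.2) _ T h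
  refine ⟨by rw [h1, Finset.card_product, Finset.card_univ, Fintype.card_fin], ?_⟩
  intro x hx
  obtain ⟨k, hk, hk2⟩ := h2 x hx
  exact ⟨k.2, (Finset.mem_product.1 hk).2, hk2⟩

/-- the product over two blocks -/
lemma PP_union (m : ℕ) {n : ℕ} (a : Fin n → X → F) (s s' : Finset (Fin n)) (hd : Disjoint s' s)
    (T T' : Finset X) (hT : Disjoint T' T) (hc : T'.card = m * s'.card)
    (h0 : ∀ x ∈ T, ∀ i ∈ s', a i x = 0) :
    cf (PP m a (s' ∪ s)) (T' ∪ T) = cf (PP m a s') T' * cf (PP m a s) T := by
  have e : PP m a (s' ∪ s) = PP m a s' * PP m a s := by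
    unfold PP
    rw [Finset.prod_union hd]
  rw [e, SF.mul_apply, Finset.sum_eq_single T']
  · rw [Finset.union_sdiff_cancel_left hT]
  · intro A hA hne
    by_cases h1 : cf (PP m a s') A = 0
    · rw [h1, zero_mul]
    · exfalso
      obtain ⟨h2, h3⟩ := supp_PP m a s' A h1
      apply hne
      refine Finset.eq_of_subset_of_card_le ?_ (by rw [h2, hc])
      intro x hx
      have h4 := Finset.mem_powerset.1 hA hx
      rcases Finset.mem_union.1 h4 with h5 | h5
      · exact h5
      · obtain ⟨i, hi, hi2⟩ := h3 x hx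
        exact absurd (h0 x h5 i hi) hi2
  · intro h
    exact absurd (Finset.mem_powerset.2 Finset.subset_union_left) h

/-- the power of a linear form -/
lemma cf_L_pow (a : X → F) (m : ℕ) (T : Finset X) :
    cf ((L a : SF X F) ^ m) T = if T.card = m then (m.factorial : F) * ∏ x ∈ T, a x else 0 := by
  induction m generalizing T with
  | zero =>
    rw [pow_zero, SF.one_apply]
    by_cases h : T = ∅
    · simp [h]
    · rw [if_neg h, if_neg (by rwa [Finset.card_eq_zero])]
  | succ m ih =>
    rw [pow_succ', L_mul_apply]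
    have e : ∀ x ∈ T, a x • cf ((L a : SF X F) ^ m) (T.erase x) =
        if T.card = m + 1 then (m.factorial : F) * ∏ y ∈ T, a y else 0 := by
      intro x hx
      rw [ih, smul_eq_mul]
      have h1 := Finset.card_erase_add_one hx
      by_cases h : T.card = m + 1
      · rw [if_pos h, if_pos (by omega), ← Finset.mul_prod_erase T _ hx]
        ring
      · rw [if_neg h, if_neg (by omega), mul_zero]
    rw [Finset.sum_congr rfl e, Finset.sum_const, nsmul_eq_mul]
    by_cases h : T.card = m + 1
    · rw [if_pos h, if_pos h, h, Nat.factorial_succ]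
      push_cast; ring
    · rw [if_neg h, if_neg h, mul_zero]

/-- the coefficient for a block with two elements -/
lemma cf_two (m : ℕ) (a b : X → F) (T : Finset X) (hT : T.card = 2 * m) :
    cf ((L a : SF X F) ^ m * (L b : SF X F) ^ m) T =
      (m.factorial : F) ^ 2 * (∏ x ∈ T, lf a b x).coeff m := by
  rw [SF.mul_apply]
  simp only [cf_L_pow]
  unfold lf
  rw [Finset.prod_add, Polynomial.finsetSum_coeff, Finset.mul_sum]
  refine Finset.sum_congr rfl fun A hA => ?_
  rw [Finset.mem_powerset] at hA
  have h1 : (∏ i ∈ A, (Polynomial.C (a i) * Polynomial.X)) * ∏ i ∈ T \ A, Polynomial.C (b i) =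
      Polynomial.C ((∏ i ∈ A, a i) * ∏ i ∈ T \ A, b i) * Polynomial.X ^ A.card := by
    rw [Finset.prod_mul_distrib, Finset.prod_const, ← map_prod, ← map_prod, map_mul]
    ring
  rw [h1, Polynomial.coeff_C_mul, Polynomial.coeff_X_pow]
  have h2 : (T \ A).card = T.card - A.card := Finset.card_sdiff_of_subset hA
  have h3 := Finset.card_le_card hA
  by_cases h : A.card = m
  · rw [if_pos h, if_pos (by omega), if_pos h.symm]
    ring
  · have h4 : ¬ m = A.card := fun h' => h h'.symm
    rw [if_neg h, if_neg h4]
    simp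

/-- the whole product from the blocks -/
lemma exists_of_blocks (m : ℕ) {n : ℕ} (a : Fin n → X → F) (blk : Fin n → ℕ) (lev : X → ℕ)
    (hup : ∀ i x, lev x < blk i → a i x = 0) (D : Finset X)
    (hb : ∀ k, ∃ T : Finset X, (∀ x ∈ T, lev x = k ∧ x ∉ D) ∧
      T.card = m * (univ.filter (fun i => blk i = k)).card ∧
      cf (PP m a (univ.filter (fun i => blk i = k))) T ≠ 0) :
    ∃ T : Finset X, (∀ x ∈ T, x ∉ D) ∧ T.card = m * n ∧ cf (PP m a univ) T ≠ 0 := by
  have key : ∀ K : ℕ, ∃ T : Finset X, (∀ x ∈ T, lev x < K ∧ x ∉ D) ∧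
      T.card = m * (univ.filter (fun i => blk i < K)).card ∧
      cf (PP m a (univ.filter (fun i => blk i < K))) T ≠ 0 := by
    intro K
    induction K with
    | zero =>
      refine ⟨∅, by simp, by simp, ?_⟩
      have : (univ.filter (fun i : Fin n => blk i < 0)) = ∅ := by simp
      rw [this, PP, Finset.prod_empty, SF.one_apply, if_pos rfl]
      exact one_ne_zero
    | succ K ih =>
      obtain ⟨T, hT1, hT2, hT3⟩ := ih
      obtain ⟨T', hT1', hT2', hT3'⟩ := hb K
      have e : (univ.filter (fun i : Fin n => blk i < K + 1)) =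
          (univ.filter (fun i => blk i = K)) ∪ (univ.filter (fun i => blk i < K)) := by
        ext i
        simp only [mem_filter, mem_univ, true_and, mem_union]
        omega
      have hd : Disjoint (univ.filter (fun i : Fin n => blk i = K))
          (univ.filter (fun i => blk i < K)) := by
        rw [Finset.disjoint_filter]
        intro i _ h1 h2
        omega
      have hdT : Disjoint T' T := by
        rw [Finset.disjoint_left]
        intro x hx hx'
        have h1 := (hT1' x hx).1
        have h2 := (hT1 x hx').1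
        omega
      refine ⟨T' ∪ T, ?_, ?_, ?_⟩
      · intro x hx
        rcases Finset.mem_union.1 hx with h | h
        · have := hT1' x h
          exact ⟨by omega, this.2⟩
        · have := hT1 x h
          exact ⟨by omega, this.2⟩
      · rw [Finset.card_union_of_disjoint hdT, e, Finset.card_union_of_disjoint hd, hT2, hT2']
        ring
      · rw [e, PP_union m a _ _ hd T T' hdT hT2' ?_]
        · exact mul_ne_zero hT3' hT3
        · intro x hx i hi
          rw [mem_filter] at hi
          apply hup
          rw [hi.2]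
          exact (hT1 x hx).1
  obtain ⟨T, h1, h2, h3⟩ := key (univ.sup blk + 1)
  have e : (univ.filter (fun i : Fin n => blk i < univ.sup blk + 1)) = univ := by
    ext i
    simp only [mem_filter, mem_univ, true_and, iff_true]
    exact Nat.lt_succ_of_le (Finset.le_sup (f := blk) (mem_univ i))
  rw [e] at h2 h3
  refine ⟨T, fun x hx => (h1 x hx).2, ?_, h3⟩
  rw [h2, Finset.card_univ, Fintype.card_fin]

/-- from the coefficient to the permanent -/
lemma permanent_of_cf (m : ℕ) {n : ℕ} (a : Fin n → X → F) (T : Finset X) (hc : T.card = m * n)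
    (h : cf (PP m a univ) T ≠ 0) :
    ∃ f : Fin m × Fin n → X, Function.Injective f ∧ (∀ c, f c ∈ T) ∧
      Matrix.permanent (Matrix.of (fun (r c : Fin m × Fin n) => a r.2 (f c))) ≠ 0 := by
  have hc' : Fintype.card (Fin m × Fin n) = Fintype.card T := by
    rw [Fintype.card_prod, Fintype.card_fin, Fintype.card_fin, Fintype.card_coe, hc]
  let e : Fin m × Fin n ≃ T := Fintype.equivOfCardEq hc'
  have hinj : Function.Injective (fun k => (e k : X)) := Subtype.val_injective.comp e.injective
  refine ⟨fun k => (e k : X), hinj, fun k => (e k).2, ?_⟩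
  have himg : Finset.univ.image (fun k => (e k : X)) = T := by
    ext x
    simp only [Finset.mem_image, Finset.mem_univ, true_and]
    constructor
    · rintro ⟨k, rfl⟩; exact (e k).2
    · intro hx; exact ⟨e.symm ⟨x, hx⟩, by simp⟩
  have := cf_prod_eq_permanent m a (fun k => (e k : X)) hinj
  rw [himg] at this
  rw [← this]
  exact h

end Pool.Agent.W5h21.AT
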