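import Mathlib
import Pool.Agent.W5h21.AT.Block

set_option autoImplicit false
set_option linter.unusedSectionVars false

/-!
# Alon-Tarsi bases in block triangular matrices with blocks of size at most two
-/

namespace Pool.Agent.W5h21.AT

open Finset Pool.Agent.H443R2.AB Pool.Agent.H443R2.AB.SF

universe u

variable {F : Type u} [Field F]

/-- a diagonal block is not annihilated by a nonzero vector -/
lemma block_ne {n : ℕ} (blk : Fin n → ℕ) (M : Matrix (Fin n) (Fin n) F) (hM : M.det ≠ 0)
    (hT : M.BlockTriangular blk) (k : ℕ) (w : Fin n → F) (hw : ∃ i, blk i = k ∧ w i ≠ 0) :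
    ∃ c, blk c = k ∧ ∑ i ∈ univ.filter (fun i => blk i = k), w i * M i c ≠ 0 := by
  by_contra hcon
  push Not at hcon
  obtain ⟨i0, hi0, hw0⟩ := hw
  apply hM
  rw [hT.det]
  refine Finset.prod_eq_zero (i := k) (mem_image.2 ⟨i0, mem_univ _, hi0⟩) ?_
  rw [← Matrix.exists_vecMul_eq_zero_iff]
  refine ⟨fun r => w r.1, fun h => hw0 (congrFun h ⟨i0, hi0⟩), ?_⟩
  funext c
  have h1 := hcon c.1 c.2
  rw [Pi.zero_apply, ← h1]
  simp only [Matrix.vecMul, dotProduct, Matrix.toSquareBlock, Matrix.toSquareBlockProp,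
    Matrix.toBlock, Matrix.submatrix_apply, Matrix.of_apply]
  symm
  exact Finset.sum_subtype (univ.filter (fun i => blk i = k)) (by simp) (fun i => w i * M i c.1)

lemma fact_ne (p : ℕ) [hp : Fact p.Prime] [CharP F p] : (((p - 1).factorial : ℕ) : F) ≠ 0 := by
  intro h
  rw [CharP.cast_eq_zero_iff F p] at h
  have h1 := (hp.out.dvd_factorial).1 h
  have := hp.out.two_le
  omega

theorem blocks (p : ℕ) [hp : Fact p.Prime] [CharP F p] (n : ℕ) (blk : Fin n → ℕ)
    (hblk : ∀ k, (univ.filter (fun i => blk i = k)).card ≤ 2)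
    (B : Fin p → Matrix (Fin n) (Fin n) F) (hB : ∀ j, (B j).det ≠ 0)
    (hT : ∀ j, (B j).BlockTriangular blk) (D : Finset (Fin p × Fin n))
    (hD : ∀ k, (D.filter (fun x => blk x.2 = k)).card ≤ 1) :
    ∃ f : Fin (p - 1) × Fin n → Fin p × Fin n, Function.Injective f ∧ (∀ c, f c ∉ D) ∧
      Matrix.permanent
        (Matrix.of (fun (r c : Fin (p - 1) × Fin n) => B (f c).1 r.2 (f c).2)) ≠ 0 := by
  classical
  have hp2 := hp.out.two_le
  set a : Fin n → Fin p × Fin n → F := fun i x => B x.1 i x.2 with ha
  have hmain := exists_of_blocks (p - 1) a blk (fun x : Fin p × Fin n => blk x.2)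
    (fun i x h => hT x.1 h) D ?_
  · obtain ⟨T, h1, h2, h3⟩ := hmain
    obtain ⟨f, hf1, hf2, hf3⟩ := permanent_of_cf (p - 1) a T h2 h3
    exact ⟨f, hf1, fun c => h1 _ (hf2 c), hf3⟩
  intro k
  -- the columns of the block
  set Y : Finset (Fin p × Fin n) := univ.filter (fun x => blk x.2 = k) with hY
  have hYc : Y.card = p * (univ.filter (fun i : Fin n => blk i = k)).card := by
    have : Y = (univ : Finset (Fin p)) ×ˢ (univ.filter (fun i : Fin n => blk i = k)) := by
      ext x; simp [hY]
    rw [this, Finset.card_product, Finset.card_univ, Fintype.card_fin]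
  have hYD : Y.card ≤ (Y \ D).card + 1 := by
    have h1 := Finset.card_sdiff_add_card_inter Y D
    have h2 : (Y ∩ D).card ≤ 1 := by
      refine le_trans (Finset.card_le_card ?_) (hD k)
      intro x hx
      rw [mem_inter] at hx
      rw [mem_filter]
      exact ⟨hx.2, (mem_filter.1 hx.1).2⟩
    omega
  have hsub : ∀ x ∈ Y \ D, blk x.2 = k ∧ x ∉ D := fun x hx =>
    ⟨(mem_filter.1 (mem_sdiff.1 hx).1).2, (mem_sdiff.1 hx).2⟩
  have hle := hblk k
  interval_cases hc : (univ.filter (fun i : Fin n => blk i = k)).card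
  · refine ⟨∅, by simp, by simp, ?_⟩
    rw [Finset.card_eq_zero] at hc
    rw [hc, PP, Finset.prod_empty, SF.one_apply, if_pos rfl]
    exact one_ne_zero
  · obtain ⟨i, hi⟩ := Finset.card_eq_one.1 hc
    obtain ⟨T, hT1, hT2⟩ := Finset.exists_subset_card_eq (s := Y \ D) (n := p - 1) (by omega)
    refine ⟨T, fun x hx => hsub x (hT1 hx), by omega, ?_⟩
    rw [hi, PP, Finset.prod_singleton, cf_L_pow, if_pos hT2]
    refine mul_ne_zero (fact_ne p) (Finset.prod_ne_zero_iff.2 fun x hx => ?_)
    have hxk := (hsub x (hT1 hx)).1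
    have hx2 : x.2 = i := by
      have : x.2 ∈ univ.filter (fun i : Fin n => blk i = k) := by simp [hxk]
      rw [hi, mem_singleton] at this
      exact this
    obtain ⟨c, hc1, hc2⟩ := block_ne blk (B x.1) (hB x.1) (hT x.1) k (fun _ => 1)
      ⟨x.2, hxk, one_ne_zero⟩
    have hc3 : c = i := by
      have : c ∈ univ.filter (fun i : Fin n => blk i = k) := by simp [hc1]
      rw [hi, mem_singleton] at this
      exact this
    rw [hi, Finset.sum_singleton, one_mul, hc3] at hc2
    show B x.1 i x.2 ≠ 0
    rw [hx2]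
    exact hc2
  · obtain ⟨i, i', hne, hi⟩ := Finset.card_eq_two.1 hc
    obtain ⟨s, hs1, hs2⟩ := Finset.exists_subset_card_eq (s := Y \ D) (n := 2 * p - 1) (by omega)
    have hmem : ∀ c : Fin n, blk c = k → c = i ∨ c = i' := by
      intro c hc'
      have : c ∈ univ.filter (fun i : Fin n => blk i = k) := by simp [hc']
      rw [hi, mem_insert, mem_singleton] at this
      exact this
    have hbi : blk i = k := by
      have : i ∈ univ.filter (fun i : Fin n => blk i = k) := by rw [hi]; simp
      exact (mem_filter.1 this).2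
    have hbi' : blk i' = k := by
      have : i' ∈ univ.filter (fun i : Fin n => blk i = k) := by rw [hi]; simp
      exact (mem_filter.1 this).2
    -- a nonzero vector annihilates at most one column of each matrix
    have hone : ∀ (w1 w2 : F), (w1 ≠ 0 ∨ w2 ≠ 0) → ∀ j : Fin p, ∀ c c' : Fin n, blk c = k → blk c' = k →
        w1 * B j i c + w2 * B j i' c = 0 → w1 * B j i c' + w2 * B j i' c' = 0 → c = c' := by
      intro w1 w2 hw j c c' hck hck' h1 h2
      by_contra hcc
      obtain ⟨d, hd1, hd2⟩ := block_ne blk (B j) (hB j) (hT j) k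
        (fun r => if r = i then w1 else w2) (by
          rcases hw with hw | hw
          · exact ⟨i, hbi, by rw [if_pos rfl]; exact hw⟩
          · exact ⟨i', hbi', by rw [if_neg (fun h => hne h.symm)]; exact hw⟩)
      rw [hi, Finset.sum_pair hne, if_pos rfl, if_neg (fun h => hne h.symm)] at hd2
      apply hd2
      have hall : d = c ∨ d = c' := by
        rcases hmem c hck with e1 | e1 <;> rcases hmem c' hck' with e2 | e2 <;>
          rcases hmem d hd1 with e3 | e3 <;> subst e1 <;> subst e2 <;> subst e3 <;> simp_all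
      rcases hall with h | h
      · rw [h]; exact h1
      · rw [h]; exact h2
    have hcount : ∀ (w1 w2 : F), (w1 ≠ 0 ∨ w2 ≠ 0) →
        (s.filter (fun x => w1 * a i x + w2 * a i' x = 0)).card ≤ p := by
      intro w1 w2 hw
      have h1 : (s.filter (fun x => w1 * a i x + w2 * a i' x = 0)).card ≤
          (univ : Finset (Fin p)).card := by
        refine Finset.card_le_card_of_injOn (fun x => x.1) (fun x _ => mem_coe.2 (mem_univ _)) ?_
        intro x hx y hy hxy
        rw [mem_coe, mem_filter] at hx hy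
        have hx2 := (hsub x (hs1 hx.1)).1
        have hy2 := (hsub y (hs1 hy.1)).1
        have h3 : x.1 = y.1 := hxy
        have h4 := hy.2
        simp only [ha] at h4
        rw [← h3] at h4
        exact Prod.ext h3 (hone w1 w2 hw x.1 x.2 y.2 hx2 hy2 hx.2 h4)
      rwa [Finset.card_univ, Fintype.card_fin] at h1
    have h0 : ∀ x ∈ s, ¬ (a i x = 0 ∧ a i' x = 0) := by
      rintro x hx ⟨h1, h2⟩
      have hx2 := (hsub x (hs1 hx)).1
      -- choose the vector annihilating the other column
      obtain ⟨c', hc', hcne⟩ : ∃ c', blk c' = k ∧ c' ≠ x.2 := by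
        rcases hmem x.2 hx2 with h | h
        · exact ⟨i', hbi', by rw [h]; exact fun h' => hne h'.symm⟩
        · exact ⟨i, hbi, by rw [h]; exact hne⟩
      have h1' : B x.1 i x.2 = 0 := h1
      have h2' : B x.1 i' x.2 = 0 := h2
      by_cases hz : B x.1 i c' = 0 ∧ B x.1 i' c' = 0
      · exact hcne (hone 1 0 (Or.inl one_ne_zero) x.1 c' x.2 hc' hx2 (by rw [hz.1]; ring)
          (by rw [h1']; ring))
      · refine hcne (hone (B x.1 i' c') (- B x.1 i c') ?_ x.1 c' x.2 hc' hx2 (by ring)
          (by rw [h1', h2']; ring))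
        by_contra hcon
        push Not at hcon
        exact hz ⟨neg_eq_zero.1 hcon.2, hcon.1⟩
    obtain ⟨j, hj, hcoef⟩ := key (p := p) (a i) (a i') s hs2 h0
      (fun ρ => by
        have := hcount ρ 1 (Or.inr one_ne_zero)
        refine le_trans (Finset.card_le_card ?_) this
        intro x hx
        rw [mem_filter] at hx ⊢
        exact ⟨hx.1, by linear_combination hx.2⟩)
      (by
        have := hcount 1 0 (Or.inl one_ne_zero)
        refine le_trans (Finset.card_le_card ?_) this
        intro x hx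
        rw [mem_filter] at hx ⊢
        exact ⟨hx.1, by linear_combination hx.2⟩)
    have hcard : (s.erase j).card = 2 * (p - 1) := by
      rw [Finset.card_erase_of_mem hj, hs2]; omega
    refine ⟨s.erase j, fun x hx => hsub x (hs1 (mem_of_mem_erase hx)), by omega, ?_⟩
    rw [hi, PP, Finset.prod_pair hne, cf_two _ _ _ _ hcard]
    exact mul_ne_zero (pow_ne_zero 2 (fact_ne p)) hcoef

end Pool.Agent.W5h21.AT
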