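import Mathlib
import Pool.Agent.W5h21.AT.Final

set_option autoImplicit false
set_option linter.unusedSectionVars false

/-!
# Change of basis and the final form
-/

namespace Pool.Agent.W5h21.AT

open Finset Pool.Agent.H443R2.AB Pool.Agent.H443R2.AB.SF

universe u

variable {F : Type u} [Field F] {X : Type} [DecidableEq X] [Fintype X]

/-- the rows after a change of basis -/
def act {n : ℕ} (M : Matrix (Fin n) (Fin n) F) (a : Fin n → X → F) : Fin n → X → F :=
  fun i x => ∑ k, M i k * a k x

lemma act_eq {n : ℕ} (M : Matrix (Fin n) (Fin n) F) (a : Fin n → X → F) (i : Fin n) :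
    act M a i = ∑ k, M i k • a k := by
  funext x
  simp [act, Finset.sum_apply]

lemma act_mul {n : ℕ} (A B : Matrix (Fin n) (Fin n) F) (a : Fin n → X → F) :
    act (A * B) a = act A (act B a) := by
  funext i x
  simp only [act, Matrix.mul_apply, Finset.sum_mul, Finset.mul_sum]
  rw [Finset.sum_comm]
  exact Finset.sum_congr rfl fun j _ => Finset.sum_congr rfl fun k _ => by ring

lemma PP_act (p : ℕ) [hp : Fact p.Prime] [CharP F p] {n : ℕ} (M : Matrix (Fin n) (Fin n) F)
    (hM : M.det ≠ 0) :
    ∃ u : F, ∀ a : Fin n → X → F, PP (p - 1) (act M a) univ = u • PP (p - 1) a univ := by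
  have hp2 := hp.out.two_le
  refine Matrix.diagonal_transvection_induction_of_det_ne_zero
    (fun M => ∃ u : F, ∀ a : Fin n → X → F, PP (p - 1) (act M a) univ = u • PP (p - 1) a univ)
    M hM ?_ ?_ ?_
  · intro D _
    refine ⟨∏ i, (D i) ^ (p - 1), fun a => ?_⟩
    have h1 : ∀ i, act (Matrix.diagonal D) a i = D i • a i := by
      intro i
      rw [act_eq, Finset.sum_eq_single i]
      · rw [Matrix.diagonal_apply_eq]
      · intro k _ hk
        rw [Matrix.diagonal_apply_ne _ (Ne.symm hk), zero_smul]
      · intro h; exact absurd (mem_univ i) h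
    unfold PP
    simp only [h1, L_smul, smul_pow]
    rw [Finset.prod_smul]
  · intro t
    refine ⟨1, fun a => ?_⟩
    rw [one_smul]
    have h1 : ∀ k, k ≠ t.i → act t.toMatrix a k = a k := by
      intro k hk
      rw [act_eq, Finset.sum_eq_single k]
      · simp [Matrix.TransvectionStruct.toMatrix, Matrix.transvection, Matrix.single_apply, Ne.symm hk]
      · intro l _ hl
        simp [Matrix.TransvectionStruct.toMatrix, Matrix.transvection, Matrix.single_apply,
          Ne.symm hk, Ne.symm hl, Matrix.one_apply]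
      · intro h; exact absurd (mem_univ k) h
    have h2 : act t.toMatrix a t.i = a t.i + t.c • a t.j := by
      have e : ∀ k, t.toMatrix t.i k • a k = (if k = t.i then a t.i else 0) +
          (if k = t.j then t.c • a t.j else 0) := by
        intro k
        by_cases hk : k = t.i
        · subst hk
          simp [Matrix.TransvectionStruct.toMatrix, Matrix.transvection, Matrix.single_apply,
            Matrix.one_apply, t.hij, Ne.symm t.hij]
        · by_cases hk' : k = t.j
          · subst hk'
            simp [Matrix.TransvectionStruct.toMatrix, Matrix.transvection, Matrix.single_apply,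
              Matrix.one_apply, t.hij, Ne.symm t.hij]
          · simp [Matrix.TransvectionStruct.toMatrix, Matrix.transvection, Matrix.single_apply,
              Matrix.one_apply, hk, hk', Ne.symm hk, Ne.symm hk']
      rw [act_eq, Finset.sum_congr rfl fun k _ => e k, Finset.sum_add_distrib]
      simp
    unfold PP
    have hne : t.i ≠ t.j := t.hij
    have hj : t.j ∈ (univ : Finset (Fin n)).erase t.i := mem_erase.2 ⟨Ne.symm hne, mem_univ _⟩
    rw [← Finset.mul_prod_erase univ _ (mem_univ t.i), ← Finset.mul_prod_erase _ _ hj,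
      ← Finset.mul_prod_erase univ (fun i => (L (a i) : SF X F) ^ (p - 1)) (mem_univ t.i),
      ← Finset.mul_prod_erase _ (fun i => (L (a i) : SF X F) ^ (p - 1)) hj, ← mul_assoc, ← mul_assoc]
    have e1 : ∏ x ∈ ((univ : Finset (Fin n)).erase t.i).erase t.j,
        (L (act t.toMatrix a x) : SF X F) ^ (p - 1) =
        ∏ x ∈ ((univ : Finset (Fin n)).erase t.i).erase t.j, (L (a x) : SF X F) ^ (p - 1) := by
      refine Finset.prod_congr rfl fun k hk => ?_
      rw [h1 k (ne_of_mem_erase (mem_of_mem_erase hk))]
    rw [e1, h1 t.j (Ne.symm hne), h2]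
    congr 1
    rw [L_add, L_smul]
    set x : SF X F := L (a t.i) with hx
    set y : SF X F := L (a t.j) with hy
    have hy0 : y ^ p = 0 := by rw [hy]; exact L_pow_char p (a t.j)
    -- powers of the sum
    have key : ∀ m : ℕ, (x + t.c • y) ^ m * y ^ (p - 1) = x ^ m * y ^ (p - 1) := by
      intro m
      induction m with
      | zero => rw [pow_zero, pow_zero]
      | succ m ih =>
        have h3 : y * y ^ (p - 1) = 0 := by
          rw [← pow_succ', Nat.sub_add_cancel (by omega), hy0]
        calc (x + t.c • y) ^ (m + 1) * y ^ (p - 1)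
            = (x + t.c • y) * ((x + t.c • y) ^ m * y ^ (p - 1)) := by ring
          _ = (x + t.c • y) * (x ^ m * y ^ (p - 1)) := by rw [ih]
          _ = x ^ (m + 1) * y ^ (p - 1) + t.c • (x ^ m * (y * y ^ (p - 1))) := by
              rw [add_mul, smul_mul_assoc]
              congr 1
              · ring
              · congr 1; ring
          _ = x ^ (m + 1) * y ^ (p - 1) := by rw [h3, mul_zero, smul_zero, add_zero]
    exact key (p - 1)
  · rintro A B _ _ ⟨u, hu⟩ ⟨v, hv⟩
    refine ⟨u * v, fun a => ?_⟩
    rw [act_mul, hu, hv, smul_smul]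

theorem flags (p : ℕ) [hp : Fact p.Prime] [CharP F p] (n : ℕ) (blk : Fin n → ℕ)
    (hblk : ∀ k, (univ.filter (fun i => blk i = k)).card ≤ 2)
    (B : Fin p → Matrix (Fin n) (Fin n) F) (hB : ∀ j, (B j).det ≠ 0)
    (P : Matrix (Fin n) (Fin n) F) (hP : P.det ≠ 0) (σ : Fin p → Equiv.Perm (Fin n))
    (hT : ∀ j, ((P * B j).submatrix id (σ j)).BlockTriangular blk) (D : Finset (Fin p × Fin n))
    (hD : ∀ k, (D.filter (fun x => blk ((σ x.1).symm x.2) = k)).card ≤ 1) :
    ∃ f : Fin (p - 1) × Fin n → Fin p × Fin n, Function.Injective f ∧ (∀ c, f c ∉ D) ∧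
      Matrix.permanent
        (Matrix.of (fun (r c : Fin (p - 1) × Fin n) => B (f c).1 r.2 (f c).2)) ≠ 0 := by
  classical
  let τ : Fin p × Fin n ≃ Fin p × Fin n :=
    { toFun := fun x => (x.1, σ x.1 x.2)
      invFun := fun x => (x.1, (σ x.1).symm x.2)
      left_inv := fun x => by simp
      right_inv := fun x => by simp }
  obtain ⟨f, hf1, hf2, hf3⟩ := blocks p n blk hblk (fun j => (P * B j).submatrix id (σ j))
    (fun j => by
      rw [Matrix.det_permute', Matrix.det_mul]
      refine mul_ne_zero ?_ (mul_ne_zero hP (hB j))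
      rcases Int.units_eq_one_or (Equiv.Perm.sign (σ j)) with h | h <;> rw [h] <;> simp)
    hT (D.map τ.symm.toEmbedding) (fun k => by
      refine le_trans (le_of_eq ?_) (hD k)
      rw [Finset.filter_map, Finset.card_map]
      rfl)
  refine ⟨fun c => τ (f c), τ.injective.comp hf1, fun c hc => hf2 c ?_, ?_⟩
  · rw [Finset.mem_map]
    exact ⟨τ (f c), hc, by simp⟩
  · set a : Fin n → Fin p × Fin n → F := fun i x => B x.1 i x.2 with ha
    have hinj : Function.Injective (fun c => τ (f c)) := τ.injective.comp hf1
    have h1 := cf_prod_eq_permanent (p - 1) a (fun c => τ (f c)) hinj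
    have h2 := cf_prod_eq_permanent (p - 1) (act P a) (fun c => τ (f c)) hinj
    obtain ⟨u, hu⟩ := PP_act (X := Fin p × Fin n) p P hP
    have h3 := hu a
    unfold PP at h3
    rw [h3, SF.smul_apply, smul_eq_mul, h1] at h2
    have h4 : (Matrix.of fun (r c : Fin (p - 1) × Fin n) => act P a r.2 (τ (f c))) =
        Matrix.of (fun (r c : Fin (p - 1) × Fin n) =>
          ((P * B (f c).1).submatrix id (σ (f c).1)) r.2 (f c).2) := by
      ext r c
      simp [act, Matrix.mul_apply, ha, τ]
    rw [h4] at h2
    intro h5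
    apply hf3
    rw [← h2]
    have h6 : Matrix.permanent (Matrix.of fun (r c : Fin (p - 1) × Fin n) => a r.2 (τ (f c))) = 0 := h5
    rw [h6, mul_zero]

end Pool.Agent.W5h21.AT
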